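import Pool.Agent.Y192.OG.StB

/-!
The ring of meromorphic functions of a curve is a domain; orders.
-/

set_option autoImplicit false

namespace Pool.Agent.Y852.OG

open Filter Metric Set Topology Pool.Agent.W603.BP Pool.Agent.Y192.OG

section general

/-- the order of the derivative -/
theorem order_deriv {f : ℂ → ℂ} {x : ℂ} (hf : MeromorphicAt f x) {k : ℤ}
    (h : (k : WithTop ℤ) ≤ meromorphicOrderAt f x) :
    ((k - 1 : ℤ) : WithTop ℤ) ≤ meromorphicOrderAt (deriv f) x := by
  cases hn : meromorphicOrderAt f x with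
  | top =>
    rw [meromorphicOrderAt_eq_top_iff] at hn
    have h1 : meromorphicOrderAt (deriv f) x = ⊤ := by
      rw [meromorphicOrderAt_eq_top_iff]
      have h2 : f =ᶠ[𝓝[≠] x] fun _ => (0 : ℂ) := hn
      filter_upwards [h2.nhdsNE_deriv] with w hw
      rw [hw]; simp
    rw [h1]; exact le_top
  | coe n =>
    rw [hn] at h
    have hkn : k ≤ n := by exact_mod_cast h
    by_cases hn0 : n = 0
    · subst hn0
      obtain ⟨g, hg, -, hgf⟩ := (meromorphicOrderAt_eq_int_iff hf).1 hn
      have h2 : f =ᶠ[𝓝[≠] x] g := by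
        filter_upwards [hgf] with w hw
        rw [hw]; simp
      rw [meromorphicOrderAt_congr h2.nhdsNE_deriv]
      refine le_trans ?_ hg.deriv.meromorphicOrderAt_nonneg
      exact_mod_cast (show k - 1 ≤ 0 by omega)
    · rw [meromorphicOrderAt_deriv_eq_sub_one (by exact_mod_cast hn0) hn]
      exact_mod_cast (show k - 1 ≤ n - 1 by omega)

end general

variable {N : ℕ} (c : Curve N)

theorem val_zero (z : ℂ) : c.val 0 z = 0 := by
  unfold Curve.val
  by_cases h : z ∈ c.U
  · rw [c.ext_of_mem _ h]; rfl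
  · rw [c.ext_of_notMem _ h]

theorem U_nonempty : c.U.Nonempty := by
  obtain ⟨z, hz⟩ := Ext_nonempty c.r0
  obtain ⟨w, hw⟩ := (c.U_punct hz).exists
  exact ⟨w, hw⟩

/-- an element whose order is infinite at one point is zero -/
theorem eq_zero_of_top {f : c.Mr} {z : ℂ} (hz : z ∈ Ext c.r0) (h : c.ord z f = ⊤) : f = 0 := by
  apply c.val_inj
  intro w hw
  rw [val_zero]
  by_contra hne
  have h1 : meromorphicOrderAt (c.val f) w ≠ ⊤ := by
    rw [(c.val_an f w hw).meromorphicOrderAt_eq, (c.val_an f w hw).analyticOrderAt_eq_zero.2 hne]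
    simp
  exact (c.val_mero f).meromorphicOrderAt_ne_top_of_isPreconnected (Ext_preconn c.r0_pos)
    (c.U_sub hw) hz h1 h

theorem val_an_ev (f : c.Mr) {z : ℂ} (hz : z ∈ Ext c.r0) (hf : f ≠ 0) :
    ∀ᶠ w in 𝓝[≠] z, w ∈ c.U ∧ c.val f w ≠ 0 := by
  have h1 : c.ord z f ≠ ⊤ := fun h => hf (eq_zero_of_top c hz h)
  have h2 := (meromorphicOrderAt_ne_top_iff_eventually_ne_zero (c.val_mero f z hz)).1 h1
  filter_upwards [c.U_punct hz, h2] with w h3 h4 using ⟨h3, h4⟩

theorem t_ring : St_ring := by
  intro N c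
  refine ⟨?_, ?_, ?_, ?_⟩
  · intro f g hfg
    obtain ⟨z, hz⟩ := Ext_nonempty c.r0
    have h1 : c.ord z (f * g) = ⊤ := by
      unfold Curve.ord
      rw [hfg, meromorphicOrderAt_eq_top_iff]
      exact Eventually.of_forall fun w => val_zero c w
    have h2 : c.ord z (f * g) = c.ord z f + c.ord z g := by
      unfold Curve.ord
      rw [c.val_mul]
      exact meromorphicOrderAt_mul (c.val_mero f z hz) (c.val_mero g z hz)
    rw [h1] at h2
    rcases WithTop.add_eq_top.1 h2.symm with h3 | h3
    · exact Or.inl (eq_zero_of_top c hz h3)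
    · exact Or.inr (eq_zero_of_top c hz h3)
  · refine ⟨⟨0, 1, fun h => ?_⟩⟩
    obtain ⟨z, hz⟩ := U_nonempty c
    have h1 := c.val_one hz
    rw [← h, val_zero] at h1
    exact zero_ne_one h1
  · intro a b hb hab
    obtain ⟨z1, hz1⟩ := Ext_nonempty c.r0
    obtain ⟨z, hz, hbz⟩ := (val_an_ev c b hz1 hb).exists
    refine ⟨c.val a z / c.val b z, ?_⟩
    have ha := c.val_an a
    have hbn := c.val_an b
    -- the quotient is locally constant
    have hcont := (hbn z hz).continuousAt.eventually_ne hbz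
    obtain ⟨ε', hε', hball'⟩ := Metric.eventually_nhds_iff_ball.1 (hcont.and (c.U_open.mem_nhds hz))
    have hconst : ∀ w ∈ ball z ε', c.val a w / c.val b w = c.val a z / c.val b z := by
      intro w hw
      have hd : DifferentiableOn ℂ (fun w => c.val a w / c.val b w) (ball z ε') := fun y hy =>
        ((ha y (hball' y hy).2).differentiableAt.div (hbn y (hball' y hy).2).differentiableAt
          (hball' y hy).1).differentiableWithinAt
      refine (convex_ball z ε').is_const_of_fderivWithin_eq_zero (𝕜 := ℂ) hd ?_ hw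
        (mem_ball_self hε')
      intro y hy
      have hyU := (hball' y hy).2
      have hby := (hball' y hy).1
      rw [fderivWithin_of_isOpen isOpen_ball hy]
      have h1 : HasDerivAt (fun w => c.val a w / c.val b w) 0 y := by
        have h2 := (ha y hyU).differentiableAt.hasDerivAt.div
          (hbn y hyU).differentiableAt.hasDerivAt hby
        refine h2.congr_deriv ?_
        have h3 := congrArg (fun f => c.val f y) hab
        simp only [c.val_mul, Pi.mul_apply, c.val_Dr _ hyU] at h3
        have h4 : deriv (c.val a) y * c.val b y - c.val a y * deriv (c.val b) y = 0 := by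
          rw [h3]; ring
        rw [h4, zero_div]
      exact h1.hasFDerivAt.fderiv.trans (by ext; simp)
    have htop : c.ord z (a - (c.val a z / c.val b z) • b) = ⊤ := by
      unfold Curve.ord
      rw [meromorphicOrderAt_eq_top_iff]
      apply Filter.Eventually.filter_mono nhdsWithin_le_nhds
      filter_upwards [ball_mem_nhds z hε'] with w hw
      have h1 := hconst w hw
      have h2 := (hball' w hw).1
      have h3 : a - (c.val a z / c.val b z) • b = a + (-(c.val a z / c.val b z)) • b := by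
        rw [neg_smul]; exact sub_eq_add_neg _ _
      rw [h3, c.val_add, Pi.add_apply, c.val_smul, ← h1]
      field_simp
      ring
    exact sub_eq_zero.1 (eq_zero_of_top c (c.U_sub hz) htop)
  · intro f hf z hz h
    exact hf (eq_zero_of_top c hz h)

/-! ### orders -/

theorem oX_of_ne {i : Fin (N + 1)} {z : ℂ} (hz : z ∈ Ext c.r0) (h : c.X i z ≠ 0) : c.oX i z = 0 := by
  unfold Curve.oX
  rw [(c.an i z hz).analyticOrderAt_eq_zero.2 h]
  simp

theorem del_U {z : ℂ} (hz : z ∈ c.U) (m : Fin N → ℤ) : c.del z m = 0 := by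
  unfold Curve.del
  apply Finset.sum_eq_zero
  intro i _
  rw [oX_of_ne c hz.1 (hz.2 _), oX_of_ne c hz.1 (hz.2 _)]
  simp

theorem bad_U {z : ℂ} (hz : z ∈ c.U) : c.bad z = 0 := by
  unfold Curve.bad
  rw [if_neg]
  rintro ⟨i, hi⟩
  exact hz.2 i hi

theorem order_X {z : ℂ} (hz : z ∈ Ext c.r0) (i : Fin (N + 1)) :
    meromorphicOrderAt (c.X i) z = (c.oX i z : ℤ) := by
  have h1 : analyticOrderAt (c.X i) z ≠ ⊤ := by
    intro h
    rw [analyticOrderAt_eq_top] at h
    obtain ⟨w, hw, hne⟩ := c.nz i
    exact hne ((c.an i).eqOn_zero_of_preconnected_of_eventuallyEq_zero (Ext_preconn c.r0_pos) hz h hw)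
  rw [(c.an i z hz).meromorphicOrderAt_eq]
  unfold Curve.oX
  obtain ⟨n, hn⟩ := ENat.ne_top_iff_exists.1 h1
  rw [← hn]
  simp

theorem order_mon {z : ℂ} (hz : z ∈ Ext c.r0) (m : Fin N → ℤ) :
    c.ord z (c.mon m) = (c.del z m : ℤ) := by
  unfold Curve.ord Curve.mon
  rw [meromorphicOrderAt_congr (c.val_mr_ev _ _ _ hz)]
  unfold Curve.monf
  rw [meromorphicOrderAt_fun_prod fun i _ => (c.xf_mero i z hz).fun_zpow _]
  unfold Curve.del
  rw [WithTop.coe_sum]
  refine Finset.sum_congr rfl fun i _ => ?_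
  rw [fun_meromorphicOrderAt_zpow (c.xf_mero i z hz)]
  unfold Curve.xf
  rw [fun_meromorphicOrderAt_div (c.an _ z hz).meromorphicAt (c.an _ z hz).meromorphicAt,
    order_X c hz, order_X c hz]
  norm_cast

theorem norm_mon {z : ℂ} (hz : z ∈ c.U) (m : Fin N → ℤ) :
    ‖c.val (c.mon m) z‖ = Real.exp (c.lam z m) := by
  rw [c.val_mon _ hz]
  unfold Curve.monf Curve.lam
  rw [norm_prod, Real.exp_sum]
  refine Finset.prod_congr rfl fun i _ => ?_
  have h1 : 0 < ‖c.X i.succ z‖ := norm_pos_iff.2 (hz.2 _)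
  have h0 : 0 < ‖c.X 0 z‖ := norm_pos_iff.2 (hz.2 _)
  unfold Curve.xf
  rw [norm_zpow, norm_div, ← Real.log_div h1.ne' h0.ne', mul_comm, Real.exp_mul,
    Real.exp_log (div_pos h1 h0), Real.rpow_intCast]

theorem val_iter (f : c.Mr) (l : ℕ) : ∀ z ∈ c.U, c.val ((c.Dr : c.Mr → c.Mr)^[l] f) z
    = iteratedDeriv l (c.val f) z := by
  induction l with
  | zero => intro z _; simp
  | succ l ih =>
    intro z hz
    rw [Function.iterate_succ_apply', c.val_Dr _ hz, iteratedDeriv_succ]
    apply Filter.EventuallyEq.deriv_eq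
    filter_upwards [c.U_open.mem_nhds hz] with w hw using ih w hw

/-- discreteness gives local finiteness -/
theorem locFin_of {E : ℂ → ℝ} (h : ∀ z ∈ Ext c.r0, ∀ᶠ w in 𝓝[≠] z, E w = 0) : c.LocFin E := by
  intro R
  set K : Set ℂ := {z : ℂ | c.r0 + 1 ≤ ‖z‖ ∧ ‖z‖ ≤ R} with hK
  have hKc : IsCompact K := by
    apply (isCompact_closedBall (0 : ℂ) R).of_isClosed_subset
    · exact (isClosed_le continuous_const continuous_norm).inter
        (isClosed_le continuous_norm continuous_const)
    · intro z hz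
      rw [mem_closedBall, dist_zero_right]
      exact hz.2
  have hKE : ∀ z ∈ K, z ∈ Ext c.r0 := fun z hz => by
    have := hz.1
    change c.r0 < ‖z‖
    linarith
  have h' : ∀ z ∈ K, ∀ᶠ w in 𝓝 z, w = z ∨ E w = 0 := by
    intro z hz
    have h2 := h z (hKE z hz)
    rw [eventually_nhdsWithin_iff] at h2
    filter_upwards [h2] with w hw
    by_cases hwz : w = z
    · exact Or.inl hwz
    · exact Or.inr (hw hwz)
  obtain ⟨t, -, ht⟩ := hKc.elim_nhds_subcover (fun z => {w | w = z ∨ E w = 0}) h'
  refine (Finset.finite_toSet t).subset ?_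
  rintro z ⟨h1, h2, h3⟩
  obtain ⟨x, hx, hzx⟩ := mem_iUnion₂.mp (ht (show z ∈ K from ⟨h1, h2⟩))
  rcases hzx with h4 | h4
  · rw [h4]; exact hx
  · exact absurd h4 h3

theorem t_ord : St_ord := by
  intro N c
  refine ⟨fun z hz => ⟨?_, ?_, ?_, ?_, ?_, ?_⟩, fun z hz m => del_U c hz m, fun z hz => bad_U c hz,
    fun z hz m => norm_mon c hz m, fun z hz f l => val_iter c f l z hz, ?_, ?_, ?_⟩
  · intro f g
    unfold Curve.ord
    rw [c.val_mul]
    exact meromorphicOrderAt_mul (c.val_mero f z hz) (c.val_mero g z hz)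
  · intro f g
    unfold Curve.ord
    rw [c.val_add]
    exact meromorphicOrderAt_add (c.val_mero f z hz) (c.val_mero g z hz)
  · intro x f
    unfold Curve.ord
    have h1 : c.val (x • f) = (fun _ => x) * c.val f := funext fun w => c.val_smul x f w
    rw [h1, meromorphicOrderAt_mul (MeromorphicAt.const x z) (c.val_mero f z hz)]
    have h2 : 0 ≤ meromorphicOrderAt (fun _ : ℂ => x) z := analyticAt_const.meromorphicOrderAt_nonneg
    exact le_add_of_nonneg_left h2
  · intro hzU f
    exact (c.val_an f z hzU).meromorphicOrderAt_nonneg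
  · intro f k hk
    unfold Curve.ord
    rw [meromorphicOrderAt_congr (c.val_Dr_ev f hz)]
    exact order_deriv (c.val_mero f z hz) hk
  · intro m
    exact order_mon c hz m
  · intro f hf
    apply locFin_of
    intro z hz
    filter_upwards [val_an_ev c f hz hf] with w hw
    have h1 : c.ord w f = 0 := by
      unfold Curve.ord
      rw [(c.val_an f w hw.1).meromorphicOrderAt_eq,
        (c.val_an f w hw.1).analyticOrderAt_eq_zero.2 hw.2]
      simp
    rw [h1]; simp
  · apply locFin_of
    intro z hz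
    filter_upwards [c.U_punct hz] with w hw
    rw [bad_U c hw]; simp
  · intro m
    apply locFin_of
    intro z hz
    filter_upwards [c.U_punct hz] with w hw
    rw [del_U c hw]; simp

end Pool.Agent.Y852.OG
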