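import Pool.Agent.Y192.OG.StB

/-!
Closure properties of controlled functions.
-/

set_option autoImplicit false

namespace Pool.Agent.Y852.OG

open Filter Metric Set Topology Pool.Agent.W603.BP Pool.Agent.Y192.OG

section

variable {N : ℕ} {c : Curve N} {F : c.Mr} (r : Rad c F)

theorem e_pos (n : ℕ) : 0 < r.e n := (r.he n).1

theorem one_le_e (n : ℕ) : 1 ≤ 1 / r.e n := by
  rw [le_div_iff₀ (r.he n).1, one_mul]
  exact (r.he n).2

theorem half_sub (n : ℕ) (z : ℂ) : closedBall z (r.e n / 2) ⊆ closedBall z (r.e n) :=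
  closedBall_subset_closedBall (by have := e_pos r n; linarith)

theorem z_U {n : ℕ} {z : ℂ} (hz : ‖z‖ = r.s n) : z ∈ c.U :=
  r.ne n z hz z (mem_closedBall_self (e_pos r n).le)

theorem bad_nonneg (z : ℂ) : 0 ≤ c.bad z := by
  unfold Curve.bad
  split_ifs <;> norm_num

/-- oscillation of the logarithms of monomials -/
theorem exists_osc : ∃ D : ℝ, 0 ≤ D ∧ ∀ (m : Fin N → ℤ) n z, ‖z‖ = r.s n →
    ∀ y ∈ closedBall z (r.e n), |c.lam y m - c.lam z m| ≤ (∑ i, |(m i : ℝ)|) * D := by
  obtain ⟨C, hC1, hC⟩ := r.osc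
  refine ⟨Real.log C, Real.log_nonneg hC1, ?_⟩
  intro m n z hz y hy
  have hzU := z_U r hz
  have hyU := r.ne n z hz y hy
  have hC0 : 0 < C := by linarith
  have key : ∀ i j, Real.log ‖c.X j y‖ - Real.log ‖c.X i y‖ ≤
      Real.log C + (Real.log ‖c.X j z‖ - Real.log ‖c.X i z‖) := by
    intro i j
    have h1 := hC n z hz i j y hy
    have y1 : 0 < ‖c.X j y‖ := norm_pos_iff.2 (hyU.2 _)
    have y0 : 0 < ‖c.X i y‖ := norm_pos_iff.2 (hyU.2 _)
    have z1 : 0 < ‖c.X j z‖ := norm_pos_iff.2 (hzU.2 _)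
    have z0 : 0 < ‖c.X i z‖ := norm_pos_iff.2 (hzU.2 _)
    rw [norm_div, norm_div] at h1
    rw [← Real.log_div y1.ne' y0.ne', ← Real.log_div z1.ne' z0.ne', ← Real.log_mul hC0.ne'
      (div_pos z1 z0).ne']
    exact Real.log_le_log (div_pos y1 y0) h1
  have key2 : ∀ i j, |(Real.log ‖c.X j y‖ - Real.log ‖c.X i y‖) -
      (Real.log ‖c.X j z‖ - Real.log ‖c.X i z‖)| ≤ Real.log C := by
    intro i j
    rw [abs_le]
    constructor
    · have := key j i; linarith
    · have := key i j; linarith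
  have e1 : c.lam y m - c.lam z m = ∑ i, (m i : ℝ) * ((Real.log ‖c.X i.succ y‖ -
      Real.log ‖c.X 0 y‖) - (Real.log ‖c.X i.succ z‖ - Real.log ‖c.X 0 z‖)) := by
    unfold Curve.lam
    rw [← Finset.sum_sub_distrib]
    exact Finset.sum_congr rfl fun i _ => by ring
  rw [e1, Finset.sum_mul]
  refine (Finset.abs_sum_le_sum_abs _ _).trans (Finset.sum_le_sum fun i _ => ?_)
  rw [abs_mul]
  exact mul_le_mul_of_nonneg_left (key2 _ _) (abs_nonneg _)

end

theorem t_ctl : St_ring → St_ord → St_ctl := by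
  intro hring hord N c F r Φ
  obtain ⟨hmul0, -, -, hntop⟩ := hring N c
  obtain ⟨horder, hdelU, hbadU, hnorm, -, -, -, -⟩ := hord N c
  obtain ⟨D, hD0, hD⟩ := exists_osc r
  have hE := one_le_e r
  have hSig : ∀ z : ℂ, 0 ≤ ∑ φ ∈ Φ, |c.lam z φ| := fun z => Finset.sum_nonneg fun _ _ => abs_nonneg _
  have hdel : ∀ z : ℂ, 0 ≤ ∑ φ ∈ Φ, |c.del z φ| := fun z => Finset.sum_nonneg fun _ _ => abs_nonneg _
  have hbad : ∀ z : ℂ, 0 ≤ c.bad z := bad_nonneg
  -- the norm of a monomial on the large ball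
  have hmon : ∀ (m : Fin N → ℤ) n z, ‖z‖ = r.s n → ∀ y ∈ closedBall z (r.e n),
      ‖c.val (c.mon m) y‖ ≤ Real.exp ((∑ i, |(m i : ℝ)|) * D) * Real.exp (c.lam z m) := by
    intro m n z hz y hy
    rw [hnorm y (r.ne n z hz y hy), ← Real.exp_add, Real.exp_le_exp]
    have := (abs_le.1 (hD m n z hz y hy)).2
    linarith
  -- the bound for the factor
  have hfac : ∀ (n : ℕ) (z : ℂ) (w : ℕ), 1 ≤ Real.exp (w * ∑ φ ∈ Φ, |c.lam z φ|) * (1 / r.e n) ^ w := by
    intro n z w
    have h1 : 1 ≤ Real.exp (w * ∑ φ ∈ Φ, |c.lam z φ|) := by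
      rw [Real.one_le_exp_iff]
      exact mul_nonneg (Nat.cast_nonneg _) (hSig z)
    exact one_le_mul_of_one_le_of_one_le h1 (one_le_pow₀ (hE n))
  have hone : ∀ z ∈ Ext c.r0, (0 : WithTop ℤ) ≤ c.ord z 1 := by
    intro z hz
    have h1 := (horder z hz).2.2.2.2.2 0
    rw [c.mon_zero] at h1
    rw [h1]
    have h2 : c.del z 0 = 0 := by unfold Curve.del; simp
    rw [h2]; rfl
  refine ⟨?_, ?_, ?_, ?_, ?_, ?_, ?_, ?_, ?_⟩
  · -- monomials
    intro m
    refine ⟨⟨Real.exp ((∑ i, |(m i : ℝ)|) * D), (Real.exp_pos _).le, ?_⟩, ?_⟩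
    · intro n z hz y hy
      simpa using hmon m n z hz y (half_sub r n z hy)
    · intro z hz
      rw [(horder z hz).2.2.2.2.2 m]
      simp
  · -- monomials of the list
    intro φ hφ
    refine ⟨⟨Real.exp ((∑ i, |(φ i : ℝ)|) * D), (Real.exp_pos _).le, ?_⟩, ?_⟩
    · intro n z hz y hy
      refine (hmon φ n z hz y (half_sub r n z hy)).trans ?_
      have h1 : c.lam z φ ≤ ∑ φ ∈ Φ, |c.lam z φ| :=
        (le_abs_self _).trans (Finset.single_le_sum (f := fun φ => |c.lam z φ|)
          (fun _ _ => abs_nonneg _) hφ)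
      have h2 : Real.exp (c.lam z φ) ≤ Real.exp (0 + ((1 : ℕ) : ℝ) * ∑ φ ∈ Φ, |c.lam z φ|) := by
        rw [Real.exp_le_exp]
        push_cast; linarith
      have h3 := hE n
      calc Real.exp ((∑ i, |(φ i : ℝ)|) * D) * Real.exp (c.lam z φ) ≤
          Real.exp ((∑ i, |(φ i : ℝ)|) * D) *
            Real.exp (0 + ((1 : ℕ) : ℝ) * ∑ φ ∈ Φ, |c.lam z φ|) := by gcongr
        _ ≤ _ := le_mul_of_one_le_right (by positivity) (by simpa using h3)
    · intro z hz
      rw [(horder z hz).2.2.2.2.2 φ]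
      have h1 : |c.del z φ| ≤ ∑ φ ∈ Φ, |c.del z φ| :=
        Finset.single_le_sum (f := fun φ => |c.del z φ|) (fun _ _ => abs_nonneg _) hφ
      have h2 := neg_abs_le (c.del z φ)
      have h3 := hbad z
      norm_cast
      push_cast
      linarith
  · -- logarithmic derivatives
    intro m
    obtain ⟨K, hK⟩ : ∃ K : ℝ, K = Real.exp ((∑ i, |(m i : ℝ)|) * D) := ⟨_, rfl⟩
    have hK0 : 0 < K := by rw [hK]; exact Real.exp_pos _
    refine ⟨⟨2 * K ^ 2, by positivity, ?_⟩, ?_⟩
    · intro n z hz y hy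
      have he := e_pos r n
      have hyU := r.ne n z hz y (half_sub r n z hy)
      have hsub : closedBall y (r.e n / 2) ⊆ closedBall z (r.e n) := by
        intro x hx
        rw [mem_closedBall] at *
        have := dist_triangle x y z
        linarith
      have h1 : ‖deriv (c.val (c.mon m)) y‖ ≤ K * Real.exp (c.lam z m) / (r.e n / 2) := by
        apply Complex.norm_deriv_le_of_forall_mem_sphere_norm_le (by linarith)
        · apply DifferentiableOn.diffContOnCl
          intro x hx
          have hx2 : x ∈ closedBall y (r.e n / 2) := closure_ball_subset_closedBall hx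
          exact (c.val_an _ x (r.ne n z hz x (hsub hx2))).differentiableAt.differentiableWithinAt
        · intro x hx
          rw [hK]
          exact hmon m n z hz x (hsub (sphere_subset_closedBall hx))
      have h2 : ‖c.val (c.mon (-m)) y‖ ≤ K * Real.exp (-c.lam z m) := by
        have h3 := hmon (-m) n z hz y (half_sub r n z hy)
        have h4 : c.lam z (-m) = -c.lam z m := by
          unfold Curve.lam
          rw [← Finset.sum_neg_distrib]
          exact Finset.sum_congr rfl fun i _ => by rw [Pi.neg_apply]; push_cast; ring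
        have h5 : (∑ i, |(((-m) i : ℤ) : ℝ)|) = ∑ i, |(m i : ℝ)| :=
          Finset.sum_congr rfl fun i _ => by rw [Pi.neg_apply, Int.cast_neg, abs_neg]
        rw [h4, h5] at h3
        rw [hK]
        exact h3
      rw [c.val_mul, Pi.mul_apply, norm_mul, c.val_Dr _ hyU]
      have h6 := hfac n z 1
      calc ‖c.val (c.mon (-m)) y‖ * ‖deriv (c.val (c.mon m)) y‖ ≤
          (K * Real.exp (-c.lam z m)) * (K * Real.exp (c.lam z m) / (r.e n / 2)) := by gcongr
        _ = (2 * K ^ 2) * (1 / r.e n) * (Real.exp (-c.lam z m) * Real.exp (c.lam z m)) := by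
          field_simp
        _ = (2 * K ^ 2) * (1 / r.e n) := by rw [← Real.exp_add]; simp
        _ ≤ (2 * K ^ 2) * (1 / r.e n) * Real.exp (0 + ((1 : ℕ) : ℝ) * ∑ φ ∈ Φ, |c.lam z φ|) := by
          apply le_mul_of_one_le_right
          · have := hE n; positivity
          · rw [Real.one_le_exp_iff]
            have := hSig z
            push_cast; linarith
        _ = _ := by rw [pow_one]; ring
    · intro z hz
      obtain ⟨omul, -, -, oU, oD, omon⟩ := horder z hz
      by_cases hzU : z ∈ c.U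
      · refine le_trans ?_ (oU hzU _)
        have h1 := hdel z
        have h2 := hbad z
        norm_cast
        push_cast
        linarith
      · have hb : c.bad z = 1 := by
          unfold Curve.bad
          rw [if_pos]
          by_contra hc
          push Not at hc
          exact hzU ⟨hz, hc⟩
        rw [omul, omon (-m)]
        have h1 := oD (c.mon m) (c.del z m) (omon m).ge
        have h2 : c.del z (-m) = -c.del z m := by
          unfold Curve.del
          rw [← Finset.sum_neg_distrib]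
          exact Finset.sum_congr rfl fun i _ => by rw [Pi.neg_apply]; ring
        rw [h2]
        have h3 : ((-c.del z m : ℤ) : WithTop ℤ) + ((c.del z m - 1 : ℤ) : WithTop ℤ) ≤
            ((-c.del z m : ℤ) : WithTop ℤ) + c.ord z (c.Dr (c.mon m)) := by gcongr
        refine le_trans ?_ h3
        have h4 := hdel z
        rw [hb]
        norm_cast
        push_cast
        linarith
  · -- constants
    intro x
    refine ⟨⟨‖x‖, norm_nonneg _, ?_⟩, ?_⟩
    · intro n z hz y hy
      have hyU := r.ne n z hz y (half_sub r n z hy)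
      have h1 : c.val (algebraMap ℂ c.Mr x) y = x := by
        rw [Algebra.algebraMap_eq_smul_one, c.val_smul, c.val_one hyU, mul_one]
      rw [h1]; simp
    · intro z hz
      rw [Algebra.algebraMap_eq_smul_one]
      refine le_trans ?_ ((horder z hz).2.2.1 x 1)
      simpa using hone z hz
  · -- the polynomial
    intro hF
    obtain ⟨C, hC⟩ := r.oscF
    have hne : ∀ n z, ‖z‖ = r.s n → c.val F z ≠ 0 := by
      intro n z hz h0
      apply hntop F hF z (c.U_sub (z_U r hz))
      unfold Curve.ord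
      rw [meromorphicOrderAt_eq_top_iff]
      apply Filter.Eventually.filter_mono nhdsWithin_le_nhds
      filter_upwards [closedBall_mem_nhds z (e_pos r n)] with y hy
      have := hC n z hz y hy
      rw [h0, norm_zero, mul_zero] at this
      exact norm_le_zero_iff.1 this
    refine ⟨⟨max C 0, le_max_right _ _, ?_⟩, ?_⟩
    · intro n z hz y hy
      have h1 : 0 < ‖c.val F z‖ := norm_pos_iff.2 (hne n z hz)
      have h2 := hC n z hz y (half_sub r n z hy)
      simp only [Nat.cast_zero, zero_mul, add_zero, pow_zero, mul_one, Real.exp_log h1]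
      exact h2.trans (mul_le_mul_of_nonneg_right (le_max_left _ _) h1.le)
    · intro z hz
      have h1 := hntop F hF z hz
      simp only [Nat.cast_zero, zero_mul, sub_zero]
      rw [WithTop.coe_untop₀_of_ne_top h1]
  · -- products
    rintro g h lm lm' nu nu' w w' ⟨⟨C, hC0, hC⟩, hg⟩ ⟨⟨C', hC0', hC'⟩, hh⟩
    refine ⟨⟨C * C', mul_nonneg hC0 hC0', ?_⟩, ?_⟩
    · intro n z hz y hy
      rw [c.val_mul, Pi.mul_apply, norm_mul]
      have he := e_pos r n
      calc ‖c.val g y‖ * ‖c.val h y‖ ≤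
          (C * Real.exp (lm z + w * ∑ φ ∈ Φ, |c.lam z φ|) * (1 / r.e n) ^ w) *
            (C' * Real.exp (lm' z + w' * ∑ φ ∈ Φ, |c.lam z φ|) * (1 / r.e n) ^ w') := by
            gcongr
            · exact hC n z hz y hy
            · exact hC' n z hz y hy
        _ = (C * C') * (Real.exp (lm z + w * ∑ φ ∈ Φ, |c.lam z φ|) *
            Real.exp (lm' z + w' * ∑ φ ∈ Φ, |c.lam z φ|)) * (1 / r.e n) ^ (w + w') := by
            rw [pow_add]; ring
        _ = _ := by
            rw [← Real.exp_add]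
            congr 3
            push_cast; ring
    · intro z hz
      rw [(horder z hz).1]
      refine le_trans ?_ (add_le_add (hg z hz) (hh z hz))
      norm_cast
      push_cast
      ring_nf
      exact le_refl _
  · -- sums
    rintro g h lm nu w ⟨⟨C, hC0, hC⟩, hg⟩ ⟨⟨C', hC0', hC'⟩, hh⟩
    refine ⟨⟨C + C', add_nonneg hC0 hC0', ?_⟩, ?_⟩
    · intro n z hz y hy
      rw [c.val_add, Pi.add_apply]
      refine (norm_add_le _ _).trans ((add_le_add (hC n z hz y hy) (hC' n z hz y hy)).trans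
        (le_of_eq ?_))
      ring
    · intro z hz
      exact le_trans (le_min (hg z hz) (hh z hz)) ((horder z hz).2.1 g h)
  · -- multiples
    rintro x g lm nu w ⟨⟨C, hC0, hC⟩, hg⟩
    refine ⟨⟨‖x‖ * C, mul_nonneg (norm_nonneg _) hC0, ?_⟩, ?_⟩
    · intro n z hz y hy
      rw [c.val_smul, norm_mul, mul_assoc, mul_assoc]
      refine mul_le_mul_of_nonneg_left ?_ (norm_nonneg _)
      rw [← mul_assoc]
      exact hC n z hz y hy
    · intro z hz
      exact (hg z hz).trans ((horder z hz).2.2.1 x g)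
  · -- larger weights
    rintro g lm nu w w' hww ⟨⟨C, hC0, hC⟩, hg⟩
    refine ⟨⟨C, hC0, ?_⟩, ?_⟩
    · intro n z hz y hy
      refine (hC n z hz y hy).trans ?_
      have h1 := hSig z
      have h2 : (w : ℝ) ≤ w' := by exact_mod_cast hww
      have h3 : Real.exp (lm z + w * ∑ φ ∈ Φ, |c.lam z φ|) ≤
          Real.exp (lm z + w' * ∑ φ ∈ Φ, |c.lam z φ|) := by
        rw [Real.exp_le_exp]
        nlinarith
      have h4 : (1 / r.e n) ^ w ≤ (1 / r.e n) ^ w' := pow_le_pow_right₀ (hE n) hww
      have he := e_pos r n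
      gcongr
    · intro z hz
      refine le_trans ?_ (hg z hz)
      have h1 := hdel z
      have h2 := hbad z
      have h3 : (w : ℤ) ≤ w' := by exact_mod_cast hww
      have h4 : (w : ℤ) * (∑ φ ∈ Φ, |c.del z φ| + c.bad z) ≤
          w' * (∑ φ ∈ Φ, |c.del z φ| + c.bad z) :=
        mul_le_mul_of_nonneg_right h3 (by linarith)
      exact_mod_cast (show nu z - (w' : ℤ) * (∑ φ ∈ Φ, |c.del z φ| + c.bad z) ≤
        nu z - w * (∑ φ ∈ Φ, |c.del z φ| + c.bad z) by linarith)

end Pool.Agent.Y852.OG
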